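import Pool.Agent.Lib.MP_688fd0_co.TE.Iface5

/-!
# Theorem E, module LVUN
-/

namespace Pool.Agent.Lib.MP_688fd0_co.TE.H65

universe u v

/-- Shift of the values of the fields. -/
def shf {V : Type u} {m T a : ℕ} (s : V → ZMod m) (ω : Fin T → Fld a V (ZMod m)) :
    Fin T → Fld a V (ZMod m) := fun t j v => (ω t j v).map (fun l => l + s v)

theorem shf_shf {V : Type u} {m T a : ℕ} (s s' : V → ZMod m) (ω : Fin T → Fld a V (ZMod m))
    (h : ∀ v, s v + s' v = 0) : shf s' (shf s ω) = ω := by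
  funext t j v
  unfold shf
  cases ho : ω t j v with
  | none => rfl
  | some l => simp only [Option.map_some]; rw [add_assoc, h v, add_zero]

theorem first_cases {V : Type u} {Val : Type v} {T a : ℕ} (ω : Fin T → Fld a V Val) (v : V) :
    (∀ t j, ω t j v = none) ∨ ∃ t j l, ω t j v = some l ∧
      ∀ t' j', (t' < t ∨ (t' = t ∧ j' < j)) → ω t' j' v = none := by
  by_cases h : ∀ t j, ω t j v = none
  · exact Or.inl h
  · right
    push Not at h
    obtain ⟨t0, j0, h0⟩ := h
    let S : Set (Fin T ×ₗ Fin a) := {p | ω (ofLex p).1 (ofLex p).2 v ≠ none}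
    have hS : S.Nonempty := ⟨toLex (t0, j0), h0⟩
    obtain ⟨p, hp, hmin⟩ := (wellFounded_lt (α := Fin T ×ₗ Fin a)).has_min S hS
    obtain ⟨l, hl⟩ := Option.ne_none_iff_exists'.1 hp
    refine ⟨(ofLex p).1, (ofLex p).2, l, hl, ?_⟩
    intro t' j' h'
    by_contra hne
    apply hmin (toLex (t', j')) hne
    rw [Prod.Lex.lt_iff]
    exact h'

theorem fst_shift {V : Type u} {m T a : ℕ}
    (fst : (Fin T → Fld a V (ZMod m)) → (Fin T → Fld a V (ZMod m)) → (V → ZMod m) → V → ZMod m)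
    (h1 : ∀ ω0 ω1 d v, (∀ t j, ω0 t j v = none) → (∀ t j, ω1 t j v = none) →
      fst ω0 ω1 d v = d v)
    (h2 : ∀ ω0 ω1 d v t j l, ω0 t j v = some l → (∀ t' j', (t' < t ∨ (t' = t ∧ j' < j)) →
      ω0 t' j' v = none) → fst ω0 ω1 d v = l)
    (h3 : ∀ ω0 ω1 d v t j l, (∀ t' j', ω0 t' j' v = none) → ω1 t j v = some l →
      (∀ t' j', (t' < t ∨ (t' = t ∧ j' < j)) → ω1 t' j' v = none) → fst ω0 ω1 d v = l)
    (s : V → ZMod m) (ω0 ω1 : Fin T → Fld a V (ZMod m)) (d : V → ZMod m) (v : V) :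
    fst (shf s ω0) (shf s ω1) (fun v => d v + s v) v = fst ω0 ω1 d v + s v := by
  have hn : ∀ (ω : Fin T → Fld a V (ZMod m)) t j, ω t j v = none → shf s ω t j v = none := by
    intro ω t j h; unfold shf; rw [h]; rfl
  have hs : ∀ (ω : Fin T → Fld a V (ZMod m)) t j l, ω t j v = some l →
      shf s ω t j v = some (l + s v) := by
    intro ω t j l h; unfold shf; rw [h]; rfl
  rcases first_cases ω0 v with h | ⟨t, j, l, hl, hb⟩
  · rcases first_cases ω1 v with h' | ⟨t, j, l, hl, hb⟩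
    · rw [h1 ω0 ω1 d v h h', h1 (shf s ω0) (shf s ω1) _ v (fun t j => hn _ t j (h t j))
        (fun t j => hn _ t j (h' t j))]
    · rw [h3 ω0 ω1 d v t j l h hl hb, h3 (shf s ω0) (shf s ω1) _ v t j (l + s v)
        (fun t j => hn _ t j (h t j)) (hs _ t j l hl) (fun t' j' h' => hn _ t' j' (hb t' j' h'))]
  · rw [h2 ω0 ω1 d v t j l hl hb, h2 (shf s ω0) (shf s ω1) _ v t j (l + s v)
        (hs _ t j l hl) (fun t' j' h' => hn _ t' j' (hb t' j' h'))]

theorem sum_piW {ι : Type u} [Fintype ι] [DecidableEq ι] {α : ι → Type v} [∀ i, Fintype (α i)]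
    (μ : ∀ i, α i → ℝ) (h : ∀ i, ∑ a, μ i a = 1) : ∑ ω, piW μ ω = 1 := by
  unfold piW
  rw [← Fintype.piFinset_univ, ← Finset.prod_univ_sum]
  exact Finset.prod_eq_one fun i _ => h i

theorem sum_optW {Val : Type v} [Fintype Val] (p : Val → ℝ) : ∑ o, optW p o = 1 := by
  rw [Fintype.sum_option]
  simp only [optW]
  ring

theorem sum_unifW (Ω : Type u) [Fintype Ω] [Nonempty Ω] : ∑ ω, unifW Ω ω = 1 := by
  unfold unifW
  rw [Finset.sum_const, Finset.card_univ, nsmul_eq_mul]
  have : (Fintype.card Ω : ℝ) ≠ 0 := by exact_mod_cast Fintype.card_ne_zero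
  field_simp

theorem lvun.{u', v'} : LVUN_S.{u', v'} := by
  intro V K _ _ _ _ m _ T a ρ hρ0 hρ1 fst h1 h2 h3 F
  set w0 : (Fin T → Fld a V (ZMod m)) → ℝ := piW (fun _ : Fin T => piW (fun _ : Fin a =>
    piW (fun _ : V => optW (fun _ : ZMod m => ρ / m)))) with hw0
  have hw0s : ∑ ω, w0 ω = 1 := by
    rw [hw0]
    exact sum_piW _ fun _ => sum_piW _ fun _ => sum_piW _ fun _ => sum_optW _
  have hinv : ∀ s ω, w0 (shf s ω) = w0 ω := by
    intro s ω
    rw [hw0]
    unfold piW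
    refine Finset.prod_congr rfl fun t _ => Finset.prod_congr rfl fun j _ =>
      Finset.prod_congr rfl fun v _ => ?_
    unfold shf
    cases ω t j v <;> rfl
  -- the joint sum as an iterated sum
  have hsplit : ∀ H : (Fin T → Fld a V (ZMod m)) → (Fin T → Fld a V (ZMod m)) → (V → ZMod m) →
      (K → ZMod m) → ℝ,
      ∑ p : (Fin T → Fld a V (ZMod m)) × (Fin T → Fld a V (ZMod m)) × (V → ZMod m) ×
          (K → ZMod m), w0 p.1 * w0 p.2.1 * unifW (V → ZMod m) p.2.2.1 *
            unifW (K → ZMod m) p.2.2.2 * H p.1 p.2.1 p.2.2.1 p.2.2.2 =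
      ∑ ω0, ∑ ω1, ∑ d, ∑ k, w0 ω0 * w0 ω1 * unifW (V → ZMod m) d * unifW (K → ZMod m) k *
        H ω0 ω1 d k := by
    intro H
    rw [Fintype.sum_prod_type]
    refine Finset.sum_congr rfl fun ω0 _ => ?_
    rw [Fintype.sum_prod_type]
    refine Finset.sum_congr rfl fun ω1 _ => ?_
    rw [Fintype.sum_prod_type]
  unfold Ex
  rw [hsplit (fun ω0 ω1 d k => F (Sum.elim (fst ω0 ω1 d) k))]
  -- shift
  have hshift : ∀ s : V → ZMod m,
      ∑ ω0, ∑ ω1, ∑ d, ∑ k, w0 ω0 * w0 ω1 * unifW (V → ZMod m) d * unifW (K → ZMod m) k *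
        F (Sum.elim (fst ω0 ω1 d) k) =
      ∑ ω0, ∑ ω1, ∑ d, ∑ k, w0 ω0 * w0 ω1 * unifW (V → ZMod m) d * unifW (K → ZMod m) k *
        F (Sum.elim (fun v => fst ω0 ω1 d v + s v) k) := by
    intro s
    let e : (Fin T → Fld a V (ZMod m)) ≃ (Fin T → Fld a V (ZMod m)) :=
      { toFun := shf s
        invFun := shf (fun v => - s v)
        left_inv := fun ω => shf_shf _ _ ω (fun v => add_neg_cancel _)
        right_inv := fun ω => shf_shf _ _ ω (fun v => neg_add_cancel _) }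
    let e' : (V → ZMod m) ≃ (V → ZMod m) := Equiv.addRight s
    symm
    refine Fintype.sum_equiv e _ _ fun ω0 => ?_
    refine Fintype.sum_equiv e _ _ fun ω1 => ?_
    refine Fintype.sum_equiv e' _ _ fun d => ?_
    refine Finset.sum_congr rfl fun k _ => ?_
    have h4 : (fun v => fst ω0 ω1 d v + s v) = fst (e ω0) (e ω1) (e' d) := by
      funext v
      exact (fst_shift fst h1 h2 h3 s ω0 ω1 d v).symm
    rw [h4]
    congr 1
    rw [show w0 (e ω0) = w0 ω0 from hinv s ω0, show w0 (e ω1) = w0 ω1 from hinv s ω1]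
    rfl
  have hne : (Fintype.card (V → ZMod m) : ℝ) ≠ 0 := by
    exact_mod_cast Fintype.card_ne_zero
  have hne' : (Fintype.card (K → ZMod m) : ℝ) ≠ 0 := by
    exact_mod_cast Fintype.card_ne_zero
  set L := ∑ ω0, ∑ ω1, ∑ d, ∑ k, w0 ω0 * w0 ω1 * unifW (V → ZMod m) d * unifW (K → ZMod m) k *
        F (Sum.elim (fst ω0 ω1 d) k) with hL
  have hsum : (Fintype.card (V → ZMod m) : ℝ) * L =
      ∑ k, unifW (K → ZMod m) k * ∑ s, F (Sum.elim s k) := by
    calc (Fintype.card (V → ZMod m) : ℝ) * L = ∑ s : V → ZMod m, L := by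
          rw [Finset.sum_const, Finset.card_univ, nsmul_eq_mul]
      _ = ∑ s : V → ZMod m, ∑ ω0, ∑ ω1, ∑ d, ∑ k, w0 ω0 * w0 ω1 * unifW (V → ZMod m) d *
            unifW (K → ZMod m) k * F (Sum.elim (fun v => fst ω0 ω1 d v + s v) k) :=
          Finset.sum_congr rfl fun s _ => hshift s
      _ = ∑ ω0, ∑ ω1, ∑ d, ∑ k, w0 ω0 * w0 ω1 * unifW (V → ZMod m) d *
            unifW (K → ZMod m) k * ∑ s, F (Sum.elim s k) := by
          rw [Finset.sum_comm]
          refine Finset.sum_congr rfl fun ω0 _ => ?_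
          rw [Finset.sum_comm]
          refine Finset.sum_congr rfl fun ω1 _ => ?_
          rw [Finset.sum_comm]
          refine Finset.sum_congr rfl fun d _ => ?_
          rw [Finset.sum_comm]
          refine Finset.sum_congr rfl fun k _ => ?_
          rw [← Finset.mul_sum]
          congr 1
          refine Fintype.sum_equiv (Equiv.addLeft (fst ω0 ω1 d)) _ _ fun s => ?_
          rfl
      _ = (∑ ω0, w0 ω0) * ((∑ ω1, w0 ω1) * ((∑ d, unifW (V → ZMod m) d) *
            ∑ k, unifW (K → ZMod m) k * ∑ s, F (Sum.elim s k))) := by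
          rw [Finset.sum_mul]
          refine Finset.sum_congr rfl fun ω0 _ => ?_
          rw [Finset.sum_mul, Finset.mul_sum]
          refine Finset.sum_congr rfl fun ω1 _ => ?_
          rw [Finset.sum_mul, Finset.mul_sum, Finset.mul_sum]
          refine Finset.sum_congr rfl fun d _ => ?_
          rw [Finset.mul_sum, Finset.mul_sum, Finset.mul_sum]
          refine Finset.sum_congr rfl fun k _ => ?_
          ring
      _ = _ := by
          rw [hw0s, sum_unifW (V → ZMod m), one_mul, one_mul, one_mul]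
  have hR : ∑ f : V ⊕ K → ZMod m, unifW (V ⊕ K → ZMod m) f * F f =
      ∑ k : K → ZMod m, ∑ s : V → ZMod m,
        1 / (Fintype.card (V → ZMod m) : ℝ) * (1 / (Fintype.card (K → ZMod m) : ℝ)) *
          F (Sum.elim s k) := by
    rw [Fintype.sum_equiv (Equiv.sumArrowEquivProdArrow V K (ZMod m)) _
      (fun p => 1 / (Fintype.card (V → ZMod m) : ℝ) * (1 / (Fintype.card (K → ZMod m) : ℝ)) *
          F (Sum.elim p.1 p.2))]
    · rw [Fintype.sum_prod_type, Finset.sum_comm]
    · intro f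
      have h5 : Sum.elim ((Equiv.sumArrowEquivProdArrow V K (ZMod m)) f).1
          ((Equiv.sumArrowEquivProdArrow V K (ZMod m)) f).2 = f :=
        (Equiv.sumArrowEquivProdArrow V K (ZMod m)).symm_apply_apply f
      rw [h5]
      congr 1
      unfold unifW
      rw [Fintype.card_congr (Equiv.sumArrowEquivProdArrow V K (ZMod m)), Fintype.card_prod]
      push_cast
      field_simp
  rw [hR]
  have h6 : L = 1 / (Fintype.card (V → ZMod m) : ℝ) *
      ∑ k, unifW (K → ZMod m) k * ∑ s, F (Sum.elim s k) := by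
    rw [← hsum]; field_simp
  rw [h6, Finset.mul_sum]
  refine Finset.sum_congr rfl fun k _ => ?_
  rw [Finset.mul_sum, Finset.mul_sum]
  refine Finset.sum_congr rfl fun s _ => ?_
  unfold unifW
  ring

end Pool.Agent.Lib.MP_688fd0_co.TE.H65
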